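import Pool.Agent.Lib.MP_df705a_gt.Coll.E.KeyInt

/-!
# The base of a submersion with Einstein fibres
-/

open scoped Manifold ContDiff Topology
open Set Bundle Module Filter MeasureTheory

noncomputable section

namespace Pool.Agent.Lib.MP_df705a_gt.Coll

open Pool.Agent.Lib.MP_df705a_gt.Twist Pool.Agent.Lib.MP_df705a_gt.Perm
open Pool.Agent.Lib.MP_df705a_gt.Circ (Horizontal Submersion cf Para HorConf)
open Pool.Agent.Lib.MP_df705a_gt.Fib (RiemSub Biconformal)

namespace ConfEinAux

variable {E : Type*} [NormedAddCommGroup E] [NormedSpace ℝ E] [FiniteDimensional ℝ E]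
  {M : Type*} [TopologicalSpace M] [ChartedSpace E M] [IsManifold 𝓘(ℝ, E) ∞ M]

theorem posDef (g : Met E M) (x : M) : (coeff g x (extChartAt 𝓘(ℝ, E) x x)).PosDef :=
  chartMetric_posDef 𝓘(ℝ, E) (finBasis ℝ E) g x (mem_extChartAt_target x)

theorem grd_comm (g : Met E M) (u v : M → ℝ) (x : M) : Grd g u v x = Grd g v u x :=
  Fib.gradC_comm (posDef g x)

/-- `0 ≤ |a du + b dv|²`. -/
theorem grd_quad (g : Met E M) (u v : M → ℝ) (x : M) (a b : ℝ) :
    0 ≤ a ^ 2 * Grd g u u x + 2 * (a * b) * Grd g u v x + b ^ 2 * Grd g v v x := by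
  have h1 := G4.quad_nonneg (posDef g x) fun i =>
    a * Curv.pd i (rd E x u) (extChartAt 𝓘(ℝ, E) x x) +
      b * Curv.pd i (rd E x v) (extChartAt 𝓘(ℝ, E) x x)
  have h2 : a ^ 2 * Grd g u u x + 2 * (a * b) * Grd g u v x + b ^ 2 * Grd g v v x =
      a ^ 2 * Grd g u u x + a * b * Grd g u v x + a * b * Grd g v u x + b ^ 2 * Grd g v v x := by
    rw [grd_comm g v u]
    ring
  rw [h2]
  refine h1.trans (le_of_eq ?_)
  unfold Grd gradC
  simp only [Finset.mul_sum, ← Finset.sum_add_distrib]
  refine Finset.sum_congr rfl fun i _ => Finset.sum_congr rfl fun j _ => ?_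
  ring

theorem sm_expc {ψ : M → ℝ} (hψ : Sm E ψ) (c : ℝ) : Sm E fun x => Real.exp (c * ψ x) :=
  Fib.sm_exp (sm_smul hψ c)

theorem grd_expc (g : Met E M) {ψ : M → ℝ} (hψ : Sm E ψ) (c : ℝ) (u : M → ℝ) (x : M) :
    Grd g (fun x => Real.exp (c * ψ x)) u x = c * Real.exp (c * ψ x) * Grd g ψ u x := by
  rw [Fib.grd_exp_left g (sm_smul hψ c), Fib.grd_mul_left g (sm_const c) hψ,
    Circ.grd_const_left]
  ring

theorem grd_expc_self (g : Met E M) {ψ : M → ℝ} (hψ : Sm E ψ) (c : ℝ) (x : M) :
    Grd g (fun x => Real.exp (c * ψ x)) (fun x => Real.exp (c * ψ x)) x =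
      c ^ 2 * Real.exp (c * ψ x) ^ 2 * Grd g ψ ψ x := by
  rw [grd_expc g hψ, grd_comm, grd_expc g hψ]
  ring

theorem integrable_of_cont [MeasurableSpace M] [BorelSpace M] [CompactSpace M] {μ : Measure M}
    [IsFiniteMeasure μ] {f : M → ℝ} (hf : Continuous f) : Integrable f μ :=
  hf.integrable_of_hasCompactSupport (HasCompactSupport.of_compactSpace f)

theorem posScal_of {g : Met E M} (h : ∀ x, 0 < Scal g x) : PosScal g := by
  intro z y hy
  rw [scal_chart g z hy]
  exact h _

theorem riem_self (h : Curv.Coeff E) (i k l : Fin (finrank ℝ E)) (x : E) :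
    Curv.riemann h i i k l x = 0 := by
  unfold Curv.riemann
  simp

theorem scal_dim_one (hd : finrank ℝ E = 1) (g : Met E M) (x : M) : Scal g x = 0 := by
  have hs : Subsingleton (Fin (finrank ℝ E)) := by
    rw [hd]
    infer_instance
  unfold Scal Curv.scal
  refine Finset.sum_eq_zero fun i _ => Finset.sum_eq_zero fun j _ =>
    Finset.sum_eq_zero fun k _ => Finset.sum_eq_zero fun l _ => ?_
  rw [Subsingleton.elim j i, riem_self, mul_zero]

end ConfEinAux

open ConfEinAux

variable {E₁ : Type*} [NormedAddCommGroup E₁] [NormedSpace ℝ E₁] [FiniteDimensional ℝ E₁]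
  {B : Type*} [TopologicalSpace B] [ChartedSpace E₁ B] [IsManifold 𝓘(ℝ, E₁) ∞ B]
  {E₂ : Type*} [NormedAddCommGroup E₂] [NormedSpace ℝ E₂] [FiniteDimensional ℝ E₂]
  {F : Type*} [TopologicalSpace F] [ChartedSpace E₂ F] [IsManifold 𝓘(ℝ, E₂) ∞ F]
  {E : Type*} [NormedAddCommGroup E] [NormedSpace ℝ E] [FiniteDimensional ℝ E]
  {M : Type*} [TopologicalSpace M] [ChartedSpace E M] [IsManifold 𝓘(ℝ, E) ∞ M]

/-- The base of a Riemannian submersion whose fibres are Einstein manifolds with nonpositive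
constants. -/
theorem conf_of_einstein [CompactSpace M] [T2Space M] [CompactSpace B] [T2Space B]
    [ConnectedSpace B] [CompactSpace F] [T2Space F] [ConnectedSpace F] [Nonempty M]
    (hd : finrank ℝ E = finrank ℝ E₁ + finrank ℝ E₂) (hd₁ : 0 < finrank ℝ E₁)
    (hd₂ : 0 < finrank ℝ E₂) (hn : 3 ≤ finrank ℝ E)
    {pr : M → B} (hpr : IsFibreBundle E E₁ E₂ F pr) {g : Met E M} {gB : Met E₁ B}
    (hg : RiemSub g gB pr) (hE : EinsteinFibres E₂ g pr) (hc : ConfPSC g) : ConfPSC gB := by
  let : MeasurableSpace E₁ := borel E₁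
  have : BorelSpace E₁ := ⟨rfl⟩
  let : MeasurableSpace E₂ := borel E₂
  have : BorelSpace E₂ := ⟨rfl⟩
  let : MeasurableSpace E := borel E
  have : BorelSpace E := ⟨rfl⟩
  let : MeasurableSpace B := borel B
  have : BorelSpace B := ⟨rfl⟩
  let : MeasurableSpace F := borel F
  have : BorelSpace F := ⟨rfl⟩
  let : MeasurableSpace M := borel M
  have : BorelSpace M := ⟨rfl⟩
  obtain ⟨μB, hB⟩ := exists_rvol gB
  have := hB.fin
  obtain ⟨δ, v, hδ, hv, hkey⟩ := key_int hd hd₂ hn hpr hg hE hc hB
  by_contra hcon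
  have hbx : Nonempty B := inferInstance
  obtain ⟨b₀⟩ := hbx
  set m : ℝ := (finrank ℝ E₁ : ℝ) with hm
  set k : ℝ := (finrank ℝ E₂ : ℝ) with hk
  have hnmk : (finrank ℝ E : ℝ) = m + k := by
    rw [hd]
    push_cast
    rfl
  rw [hnmk] at hkey
  have hk1 : 1 ≤ k := by
    rw [hk]
    exact_mod_cast hd₂
  have hm1 : 1 ≤ m := by
    rw [hm]
    exact_mod_cast hd₁
  -- positivity of the integral of a square
  have hsq : ∀ w : B → ℝ, Sm E₁ w → (∀ x, w x ≠ 0) → 0 < ∫ x, w x ^ 2 ∂μB := by
    intro w hw h0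
    exact hB.pos (hw.continuous.pow 2) (fun p => sq_nonneg _) (p := b₀)
      (by have := h0 b₀; positivity)
  rcases lt_trichotomy (finrank ℝ E₁) 2 with h2 | h2 | h2
  · -- dimension one
    have hm' : finrank ℝ E₁ = 1 := by omega
    have hmone : m = 1 := by rw [hm, hm']; norm_num
    set a : ℝ := 1 / (2 * k) with ha
    have hw := sm_expc (E := E₁) hv a
    have h3 := hkey _ hw
    have h4 : ∀ x, (4 * ((m + k) - 1) * Grd gB (fun x => Real.exp (a * v x))
        (fun x => Real.exp (a * v x)) x -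
        4 * (Real.exp (a * v x) * Grd gB (fun x => Real.exp (a * v x)) v x) -
        (m - 2) / k * (Real.exp (a * v x) ^ 2 * Grd gB v v x) +
        ((m + k) - 2) * (Scal gB x * Real.exp (a * v x) ^ 2)) = 0 := by
      intro x
      rw [grd_expc_self gB hv, grd_expc gB hv, scal_dim_one hm', hmone, ha]
      have hk0 : k ≠ 0 := by positivity
      field_simp
      ring
    have h5 : ∫ x, (4 * ((m + k) - 1) * Grd gB (fun x => Real.exp (a * v x))
        (fun x => Real.exp (a * v x)) x -
        4 * (Real.exp (a * v x) * Grd gB (fun x => Real.exp (a * v x)) v x) -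
        (m - 2) / k * (Real.exp (a * v x) ^ 2 * Grd gB v v x) +
        ((m + k) - 2) * (Scal gB x * Real.exp (a * v x) ^ 2)) ∂μB = 0 := by
      rw [integral_congr_ae (Eventually.of_forall h4)]
      simp
    rw [h5] at h3
    have h6 := hsq _ hw (fun x => (Real.exp_pos _).ne')
    nlinarith
  · -- dimension two
    have hmtwo : m = 2 := by rw [hm, h2]; norm_num
    have h3 := hkey _ (sm_const (E := E₁) (M := B) 1)
    have h4 : ∀ x, (4 * ((m + k) - 1) * Grd gB (fun _ => (1 : ℝ)) (fun _ => (1 : ℝ)) x -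
        4 * (1 * Grd gB (fun _ => (1 : ℝ)) v x) -
        (m - 2) / k * (1 ^ 2 * Grd gB v v x) +
        ((m + k) - 2) * (Scal gB x * 1 ^ 2)) = k * Scal gB x := by
      intro x
      rw [Circ.grd_const_left, Circ.grd_const_left, hmtwo]
      ring
    rw [integral_congr_ae (Eventually.of_forall h4), integral_const_mul] at h3
    have h6 := hsq _ (sm_const (E := E₁) (M := B) 1) (fun x => one_ne_zero)
    have h7 : 0 < ∫ x, Scal gB x ∂μB := by
      have h8 : 0 < k * ∫ x, Scal gB x ∂μB := lt_of_lt_of_le (mul_pos hδ h6) h3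
      exact (mul_pos_iff_of_pos_left (by linarith)).1 h8
    have h8 : 0 < ∫ x, (1 / 2 : ℝ) * Scal gB x ∂μB := by
      rw [integral_const_mul]
      linarith
    obtain ⟨f, hf, hlt⟩ := exists_lap_lt (R := fun x => (1 / 2 : ℝ) * Scal gB x) hd₁ hB
      (continuous_const.mul (scal_cont gB)) h8
    obtain ⟨g', hg'⟩ := exists_conf gB hf
    refine hcon ⟨f, g', hf, hg', posScal_of fun x => ?_⟩
    rw [hg'.scal hf x, ← hm, hmtwo]
    have h9 := hlt x
    have h10 : 0 < Scal gB x - 2 * ((2 : ℝ) - 1) * Lap gB f x -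
        ((2 : ℝ) - 1) * (2 - 2) * Grd gB f f x := by
      have : ((2 : ℝ) - 1) * (2 - 2) * Grd gB f f x = 0 := by ring
      rw [this]
      linarith
    exact mul_pos (Real.exp_pos _) h10
  · -- dimension at least three
    have hm3 : 3 ≤ m := by
      rw [hm]
      exact_mod_cast h2
    have hm2 : 0 < m - 2 := by linarith
    have hn2 : 0 < m + k - 2 := by linarith
    obtain ⟨ψ, hψ, hψ2⟩ := almost_nonpos0 (M := B) (E := E₁) (by omega) hcon
      (ε := δ / (2 * (m + k - 2))) (by positivity)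
    rw [← hm] at hψ2
    set c : ℝ := (m - 2) / 2 with hcdef
    have hw := sm_expc (E := E₁) hψ c
    have h3 := hkey _ hw
    have hW2 : Sm E₁ (fun x => Real.exp (c * ψ x) * Real.exp (c * ψ x)) := ContMDiff.mul hw hw
    have hgreen := hB.green hψ hW2
    have hGW : ∀ x, Grd gB (fun x => Real.exp (c * ψ x) * Real.exp (c * ψ x)) ψ x =
        (m - 2) * (Real.exp (c * ψ x) ^ 2 * Grd gB ψ ψ x) := by
      intro x
      rw [Fib.grd_mul_left gB hw hw, grd_expc gB hψ, hcdef]
      ring
    -- the pointwise inequality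
    have hpt : ∀ x, (4 * ((m + k) - 1) * Grd gB (fun x => Real.exp (c * ψ x))
        (fun x => Real.exp (c * ψ x)) x -
        4 * (Real.exp (c * ψ x) * Grd gB (fun x => Real.exp (c * ψ x)) v x) -
        (m - 2) / k * (Real.exp (c * ψ x) ^ 2 * Grd gB v v x) +
        ((m + k) - 2) * (Scal gB x * Real.exp (c * ψ x) ^ 2)) ≤
        δ / 2 * Real.exp (c * ψ x) ^ 2 + 2 * (m - 1) * (m + k - 2) *
          (Real.exp (c * ψ x) * Real.exp (c * ψ x) * Lap gB ψ x +
            Grd gB (fun x => Real.exp (c * ψ x) * Real.exp (c * ψ x)) ψ x) := by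
      intro x
      rw [hGW x]
      have h4 := grd_quad gB (fun x => Real.exp (c * ψ x)) v x (2 * k) ((m - 2) *
        Real.exp (c * ψ x))
      have h5 := hψ2 x
      have hgs := grd_expc_self gB hψ c x
      set W := Real.exp (c * ψ x) with hW
      have hWpos : 0 < W := Real.exp_pos _
      set G := Grd gB ψ ψ x
      set L := Lap gB ψ x
      set S := Scal gB x
      set V := Grd gB v v x
      set X := Grd gB (fun x => Real.exp (c * ψ x)) v x
      set D := Grd gB (fun x => Real.exp (c * ψ x)) (fun x => Real.exp (c * ψ x)) x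
      have hk0 : 0 < k := by linarith
      -- first inequality
      have h6 : -4 * (W * X) - (m - 2) / k * (W ^ 2 * V) ≤ 4 * k / (m - 2) * D := by
        have h7 : 0 ≤ ((2 * k) ^ 2 * D + 2 * (2 * k * ((m - 2) * W)) * X +
            ((m - 2) * W) ^ 2 * V) / (k * (m - 2)) := div_nonneg h4 (by positivity)
        have h8 : ((2 * k) ^ 2 * D + 2 * (2 * k * ((m - 2) * W)) * X +
            ((m - 2) * W) ^ 2 * V) / (k * (m - 2)) =
            4 * k / (m - 2) * D + 4 * (W * X) + (m - 2) / k * (W ^ 2 * V) := by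
          field_simp
          ring
        rw [h8] at h7
        linarith
      have h7 : S * W ^ 2 ≤ (δ / (2 * (m + k - 2)) + 2 * (m - 1) * L +
          (m - 1) * (m - 2) * G) * W ^ 2 := by
        apply mul_le_mul_of_nonneg_right _ (by positivity)
        linarith
      have h8 : (m + k - 2) * (S * W ^ 2) ≤ (m + k - 2) * ((δ / (2 * (m + k - 2)) +
          2 * (m - 1) * L + (m - 1) * (m - 2) * G) * W ^ 2) :=
        mul_le_mul_of_nonneg_left h7 hn2.le
      have h9 : 4 * ((m + k) - 1) * D + 4 * k / (m - 2) * D =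
          (m + k - 2) * ((m - 1) * (m - 2)) * (W ^ 2 * G) := by
        rw [hgs, hcdef]
        field_simp
        ring
      have h10 : (m + k - 2) * ((δ / (2 * (m + k - 2)) +
          2 * (m - 1) * L + (m - 1) * (m - 2) * G) * W ^ 2) = δ / 2 * W ^ 2 +
          (m + k - 2) * (2 * (m - 1) * L + (m - 1) * (m - 2) * G) * W ^ 2 := by
        have e1 : (m + k - 2) * (δ / (2 * (m + k - 2))) = δ / 2 := by
          field_simp
        calc (m + k - 2) * ((δ / (2 * (m + k - 2)) +
          2 * (m - 1) * L + (m - 1) * (m - 2) * G) * W ^ 2) =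
            ((m + k - 2) * (δ / (2 * (m + k - 2)))) * W ^ 2 + (m + k - 2) *
              (2 * (m - 1) * L + (m - 1) * (m - 2) * G) * W ^ 2 := by ring
          _ = _ := by rw [e1]
      have h11 : δ / 2 * W ^ 2 + 2 * (m - 1) * (m + k - 2) * (W * W * L +
          (m - 2) * (W ^ 2 * G)) = δ / 2 * W ^ 2 +
          (m + k - 2) * (2 * (m - 1) * L + (m - 1) * (m - 2) * G) * W ^ 2 +
          (m + k - 2) * ((m - 1) * (m - 2)) * (W ^ 2 * G) := by
        ring
      rw [h11]
      rw [h10] at h8
      linarith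
    have hcD : Continuous fun x => Real.exp (c * ψ x) := hw.continuous
    have hi1 : Integrable (fun x => δ / 2 * Real.exp (c * ψ x) ^ 2) μB :=
      integrable_of_cont (continuous_const.mul (hcD.pow 2))
    have hi2 : Integrable (fun x => 2 * (m - 1) * (m + k - 2) *
          (Real.exp (c * ψ x) * Real.exp (c * ψ x) * Lap gB ψ x +
            Grd gB (fun x => Real.exp (c * ψ x) * Real.exp (c * ψ x)) ψ x)) μB :=
      integrable_of_cont (continuous_const.mul (((hcD.mul hcD).mul (lap_cont gB hψ)).add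
        (Circ.sm_grd gB hW2 hψ).continuous))
    have hi0 : Integrable (fun x => (4 * ((m + k) - 1) * Grd gB (fun x => Real.exp (c * ψ x))
        (fun x => Real.exp (c * ψ x)) x -
        4 * (Real.exp (c * ψ x) * Grd gB (fun x => Real.exp (c * ψ x)) v x) -
        (m - 2) / k * (Real.exp (c * ψ x) ^ 2 * Grd gB v v x) +
        ((m + k) - 2) * (Scal gB x * Real.exp (c * ψ x) ^ 2))) μB := by
      have e1 := (Circ.sm_grd gB hw hw).continuous
      have e2 := (Circ.sm_grd gB hw hv).continuous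
      have e3 := (Circ.sm_grd gB hv hv).continuous
      have e4 := scal_cont gB
      exact integrable_of_cont ((((continuous_const.mul e1).sub
        (continuous_const.mul (hcD.mul e2))).sub
        (continuous_const.mul ((hcD.pow 2).mul e3))).add
        (continuous_const.mul (e4.mul (hcD.pow 2))))
    have h4 := h3.trans (integral_mono hi0 (hi1.add hi2) hpt)
    simp only [Pi.add_apply] at h4
    rw [integral_add hi1 hi2, integral_const_mul, integral_const_mul, hgreen, mul_zero,
      add_zero] at h4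
    have h6 := hsq _ hw (fun x => (Real.exp_pos _).ne')
    nlinarith

end Pool.Agent.Lib.MP_df705a_gt.Coll
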