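import Pool.Agent.Lib.MP_df705a_gt.Coll.IY

/-!
# The integral of the scalar curvature over the fibres
-/

open scoped Manifold ContDiff Topology
open Set Bundle Module Filter MeasureTheory

noncomputable section

namespace Pool.Agent.Lib.MP_df705a_gt.Coll

open Pool.Agent.Lib.MP_df705a_gt.Twist Pool.Agent.Lib.MP_df705a_gt.Perm
open Pool.Agent.Lib.MP_df705a_gt.Circ (Horizontal Submersion cf Para HorConf)
open Pool.Agent.Lib.MP_df705a_gt.Fib (RiemSub Biconformal)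

section aux

set_option linter.unusedSectionVars false

variable {E₁ : Type*} [NormedAddCommGroup E₁] [NormedSpace ℝ E₁] [FiniteDimensional ℝ E₁]
  {B : Type*} [TopologicalSpace B] [ChartedSpace E₁ B] [IsManifold 𝓘(ℝ, E₁) ∞ B]
  {E₂ : Type*} [NormedAddCommGroup E₂] [NormedSpace ℝ E₂] [FiniteDimensional ℝ E₂]
  {F : Type*} [TopologicalSpace F] [ChartedSpace E₂ F] [IsManifold 𝓘(ℝ, E₂) ∞ F]
  {E : Type*} [NormedAddCommGroup E] [NormedSpace ℝ E] [FiniteDimensional ℝ E]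
  {M : Type*} [TopologicalSpace M] [ChartedSpace E M] [IsManifold 𝓘(ℝ, E) ∞ M]

namespace IntScalAux

/-- The slices of a trivialization are smooth. -/
theorem smooth_slice {pr : M → B} {U : Set B} {Φ : B × F → M} (hΦ : Triv E E₁ E₂ pr U Φ) {x : B}
    (hx : x ∈ U) : ContMDiff 𝓘(ℝ, E₂) 𝓘(ℝ, E) ∞ (fun y : F => Φ (x, y)) := by
  intro y
  have h1 : ContMDiffAt (𝓘(ℝ, E₁).prod 𝓘(ℝ, E₂)) 𝓘(ℝ, E) ∞ Φ (x, y) :=
    hΦ.smooth.contMDiffAt ((hΦ.isOpen.prod isOpen_univ).mem_nhds ⟨hx, mem_univ y⟩)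
  have h2 : ContMDiffAt 𝓘(ℝ, E₂) (𝓘(ℝ, E₁).prod 𝓘(ℝ, E₂)) ∞ (fun y : F => (x, y)) y :=
    contMDiffAt_const.prodMk contMDiffAt_id
  exact ContMDiffAt.comp (I := 𝓘(ℝ, E₂)) (I' := 𝓘(ℝ, E₁).prod 𝓘(ℝ, E₂)) (I'' := 𝓘(ℝ, E)) y h1 h2

theorem inj_slice {pr : M → B} {U : Set B} {Φ : B × F → M} (hΦ : Triv E E₁ E₂ pr U Φ) {x : B}
    (hx : x ∈ U) (y : F) :
    Function.Injective (mfderiv 𝓘(ℝ, E₂) 𝓘(ℝ, E) (fun y : F => Φ (x, y)) y) := by
  have h1 : MDifferentiableAt (𝓘(ℝ, E₁).prod 𝓘(ℝ, E₂)) 𝓘(ℝ, E) Φ (x, y) :=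
    (hΦ.smooth.contMDiffAt ((hΦ.isOpen.prod isOpen_univ).mem_nhds
      ⟨hx, mem_univ y⟩)).mdifferentiableAt (by simp)
  have h2 : MDifferentiableAt 𝓘(ℝ, E₂) (𝓘(ℝ, E₁).prod 𝓘(ℝ, E₂)) (fun y : F => (x, y)) y :=
    (contMDiffAt_const.prodMk contMDiffAt_id : ContMDiffAt 𝓘(ℝ, E₂)
      (𝓘(ℝ, E₁).prod 𝓘(ℝ, E₂)) ∞ (fun y : F => (x, y)) y).mdifferentiableAt (by simp)
  have h3 := mfderiv_comp (I := 𝓘(ℝ, E₂)) (I' := 𝓘(ℝ, E₁).prod 𝓘(ℝ, E₂)) (I'' := 𝓘(ℝ, E))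
    y h1 h2
  have h4 : (fun y : F => Φ (x, y)) = Φ ∘ (fun y : F => (x, y)) := rfl
  rw [h4, h3]
  intro v w hvw
  have h5 := (hΦ.bij x hx y).1 hvw
  rw [mfderiv_prod_right] at h5
  exact congrArg Prod.snd h5

/-- The metric of the fibre in the parametrization given by a chart. -/
theorem cf_slice {pr : M → B} {U : Set B} {Φ : B × F → M} (hΦ : Triv E E₁ E₂ pr U Φ) {x : B}
    (hx : x ∈ U) {g : Met E M} {h : Met E₂ F} (hh : IsFib g Φ x h) (y₀ : F) {z : E₂}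
    (hz : z ∈ (extChartAt 𝓘(ℝ, E₂) y₀).target) :
    cf g (fun z => Φ (x, (extChartAt 𝓘(ℝ, E₂) y₀).symm z)) z = coeff h y₀ z ∧
    Function.Injective (mfderiv 𝓘(ℝ, E₂) 𝓘(ℝ, E)
      (fun z => Φ (x, (extChartAt 𝓘(ℝ, E₂) y₀).symm z)) z) := by
  have h1 : MDifferentiableAt 𝓘(ℝ, E₂) 𝓘(ℝ, E) (fun y : F => Φ (x, y))
      ((extChartAt 𝓘(ℝ, E₂) y₀).symm z) :=
    (smooth_slice hΦ hx).contMDiffAt.mdifferentiableAt (by simp)
  have h2 := symm_mdiff 𝓘(ℝ, E₂) y₀ hz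
  have h3 := mfderiv_comp (I := 𝓘(ℝ, E₂)) (I' := 𝓘(ℝ, E₂)) (I'' := 𝓘(ℝ, E)) z h1 h2
  have h4 : (fun z => Φ (x, (extChartAt 𝓘(ℝ, E₂) y₀).symm z)) =
    (fun y : F => Φ (x, y)) ∘ (extChartAt 𝓘(ℝ, E₂) y₀).symm := rfl
  constructor
  · ext i j
    have h5 : cf g (fun z => Φ (x, (extChartAt 𝓘(ℝ, E₂) y₀).symm z)) z i j =
      g.inner (Φ (x, (extChartAt 𝓘(ℝ, E₂) y₀).symm z))
        (mfderiv 𝓘(ℝ, E₂) 𝓘(ℝ, E) (fun z => Φ (x, (extChartAt 𝓘(ℝ, E₂) y₀).symm z)) z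
          (finBasis ℝ E₂ i))
        (mfderiv 𝓘(ℝ, E₂) 𝓘(ℝ, E) (fun z => Φ (x, (extChartAt 𝓘(ℝ, E₂) y₀).symm z)) z
          (finBasis ℝ E₂ j)) := rfl
    rw [h5, h4, h3]
    exact (hh ((extChartAt 𝓘(ℝ, E₂) y₀).symm z) _ _).symm
  · rw [h4, h3]
    exact (inj_slice hΦ hx _).comp (symm_injective 𝓘(ℝ, E₂) y₀ hz)

/-- The fibres are Einstein manifolds. -/
theorem einstein_fib {pr : M → B} {U : Set B} {Φ : B × F → M} (hΦ : Triv E E₁ E₂ pr U Φ) {x : B}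
    (hx : x ∈ U) {g : Met E M} {h : Met E₂ F} (hh : IsFib g Φ x h)
    (hE : EinsteinFibres E₂ g pr) : ∃ lam : ℝ, lam ≤ 0 ∧
      ∀ y, ric (coeff h y) (extChartAt 𝓘(ℝ, E₂) y y) = lam • cof h y := by
  obtain ⟨lam, hlam, h1⟩ := hE x
  refine ⟨lam, hlam, fun y => ?_⟩
  have hz : extChartAt 𝓘(ℝ, E₂) y y ∈ (extChartAt 𝓘(ℝ, E₂) y).target :=
    mem_extChartAt_target y
  have hsm : ContMDiffAt 𝓘(ℝ, E₂) 𝓘(ℝ, E) ∞
      (fun z => Φ (x, (extChartAt 𝓘(ℝ, E₂) y).symm z)) (extChartAt 𝓘(ℝ, E₂) y y) := by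
    have h2 : ContMDiffOn 𝓘(ℝ, E₂) 𝓘(ℝ, E₂) ∞ (extChartAt 𝓘(ℝ, E₂) y).symm
        (extChartAt 𝓘(ℝ, E₂) y).target := contMDiffOn_extChartAt_symm y
    have h3 := h2.contMDiffAt ((isOpen_extChartAt_target (I := 𝓘(ℝ, E₂)) y).mem_nhds hz)
    exact ContMDiffAt.comp (I := 𝓘(ℝ, E₂)) (I' := 𝓘(ℝ, E₂)) (I'' := 𝓘(ℝ, E))
      (g := fun y : F => Φ (x, y)) (f := (extChartAt 𝓘(ℝ, E₂) y).symm)
      (extChartAt 𝓘(ℝ, E₂) y y) (smooth_slice hΦ hx).contMDiffAt h3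
  have h2 := h1 (fun z => Φ (x, (extChartAt 𝓘(ℝ, E₂) y).symm z)) (extChartAt 𝓘(ℝ, E₂) y y) hsm
    (cf_slice hΦ hx hh y hz).2 (Eventually.of_forall fun z => hΦ.proj x hx _)
  have h3 : cf g (fun z => Φ (x, (extChartAt 𝓘(ℝ, E₂) y).symm z)) =ᶠ[𝓝 (extChartAt 𝓘(ℝ, E₂) y y)]
      coeff h y := by
    filter_upwards [(isOpen_extChartAt_target (I := 𝓘(ℝ, E₂)) y).mem_nhds hz] with z hz'
    exact (cf_slice hΦ hx hh y hz').1
  rw [ric_congr h3, h3.self_of_nhds] at h2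
  exact h2

/-- The scalar curvature of an Einstein manifold. -/
theorem scal_einstein {h : Met E₂ F} {lam : ℝ} (hlam : lam ≤ 0)
    (hE : ∀ y, ric (coeff h y) (extChartAt 𝓘(ℝ, E₂) y y) = lam • cof h y) (y : F) :
    Scal h y ≤ 0 := by
  have hz : extChartAt 𝓘(ℝ, E₂) y y ∈ (extChartAt 𝓘(ℝ, E₂) y).target :=
    mem_extChartAt_target y
  have hdet : (cof h y).det ≠ 0 := g3_coeff_det h y hz
  have hsy : ∀ i j, cof h y i j = cof h y j i := fun i j => h.symm _ _ _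
  have h1 : Scal h y = ∑ j, ∑ k, (cof h y)⁻¹ j k *
      ric (coeff h y) (extChartAt 𝓘(ℝ, E₂) y y) j k := by
    unfold Scal Curv.scal ric
    have h2 : ∀ j k, (cof h y)⁻¹ j k * ∑ i, ∑ l, (coeff h y (extChartAt 𝓘(ℝ, E₂) y y))⁻¹ i l *
        Curv.riemann (coeff h y) i j k l (extChartAt 𝓘(ℝ, E₂) y y) =
        ∑ i, ∑ l, (cof h y)⁻¹ i l * (cof h y)⁻¹ j k *
        Curv.riemann (coeff h y) i j k l (extChartAt 𝓘(ℝ, E₂) y y) := by
      intro j k
      rw [Finset.mul_sum]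
      refine Finset.sum_congr rfl fun i _ => ?_
      rw [Finset.mul_sum]
      refine Finset.sum_congr rfl fun l _ => ?_
      show (cof h y)⁻¹ j k * ((cof h y)⁻¹ i l * _) = _
      ring
    simp_rw [h2]
    rw [Finset.sum_comm]
    refine Finset.sum_congr rfl fun j _ => ?_
    rw [Finset.sum_comm]
    rfl
  rw [h1]
  have h3 : ∀ j k, (cof h y)⁻¹ j k * ric (coeff h y) (extChartAt 𝓘(ℝ, E₂) y y) j k =
      lam * ((cof h y)⁻¹ j k * cof h y k j) := by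
    intro j k
    rw [hE y, Matrix.smul_apply, smul_eq_mul, hsy k j]
    ring
  simp_rw [h3]
  have h4 : ∀ j, ∑ k, lam * ((cof h y)⁻¹ j k * cof h y k j) = lam := by
    intro j
    rw [← Finset.mul_sum, ← Matrix.mul_apply, Matrix.nonsing_inv_mul _ (Ne.isUnit hdet),
      Matrix.one_apply_eq, mul_one]
  rw [Finset.sum_congr rfl fun j _ => h4 j, Finset.sum_const, nsmul_eq_mul]
  exact mul_nonpos_of_nonneg_of_nonpos (Nat.cast_nonneg _) hlam

theorem sm_NN {pr : M → B} (hpr : Submersion E E₁ pr) (g : Met E M) (gB : Met E₁ B) {f : B → ℝ}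
    (hf : Sm E₁ f) : Sm E (NN g gB pr f) := by
  have h1 : Sm E (Lap g (fun p => f (pr p))) := Circ.sm_lap g (Circ.sm_comp_pr hpr.1 hf)
  have h2 : Sm E (fun p => Lap gB f (pr p)) := Circ.sm_comp_pr hpr.1 (Circ.sm_lap gB hf)
  exact ContMDiff.sub h1 h2

end IntScalAux

end aux

variable {E₁ : Type*} [NormedAddCommGroup E₁] [NormedSpace ℝ E₁] [FiniteDimensional ℝ E₁]
  {B : Type*} [TopologicalSpace B] [ChartedSpace E₁ B] [IsManifold 𝓘(ℝ, E₁) ∞ B]
  {E₂ : Type*} [NormedAddCommGroup E₂] [NormedSpace ℝ E₂] [FiniteDimensional ℝ E₂]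
  {F : Type*} [TopologicalSpace F] [ChartedSpace E₂ F] [IsManifold 𝓘(ℝ, E₂) ∞ F]
  {E : Type*} [NormedAddCommGroup E] [NormedSpace ℝ E] [FiniteDimensional ℝ E]
  {M : Type*} [TopologicalSpace M] [ChartedSpace E M] [IsManifold 𝓘(ℝ, E) ∞ M]
  [MeasurableSpace E₁] [BorelSpace E₁] [MeasurableSpace E₂] [BorelSpace E₂]
  [MeasurableSpace E] [BorelSpace E] [MeasurableSpace B] [BorelSpace B]
  [MeasurableSpace F] [BorelSpace F] [MeasurableSpace M] [BorelSpace M]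
  [CompactSpace M] [T2Space M] [CompactSpace B] [T2Space B] [CompactSpace F] [T2Space F]
  [ConnectedSpace F]

/-- The integral of the scalar curvature over the fibres. -/
theorem int_scal_le (hd : finrank ℝ E = finrank ℝ E₁ + finrank ℝ E₂) (hd₂ : 0 < finrank ℝ E₂)
    {pr : M → B} (hpr : IsFibreBundle E E₁ E₂ F pr) {g : Met E M} {gB : Met E₁ B}
    (hg : RiemSub g gB pr) (hE : EinsteinFibres E₂ g pr) {μM : Measure M} {μB : Measure B}
    (hM : IsRVol g μM) (hB : IsRVol gB μB) {I : (M → ℝ) → B → ℝ}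
    (hI : FibInt E₁ E₂ F g pr μM μB I) (x : B) :
    0 < I (fun _ => 1) x ∧
    I (Scal g) x ≤ I (fun _ => 1) x * Scal gB x - 2 * Lap gB (I fun _ => 1) x +
      (1 - 1 / (finrank ℝ E₂ : ℝ)) *
        (Grd gB (I fun _ => 1) (I fun _ => 1) x / I (fun _ => 1) x) := by
  have hs : Submersion E E₁ pr := hpr.1
  have hone : Sm E (fun _ : M => (1 : ℝ)) := contMDiff_const
  -- the first derivative of the volume
  have key : ∀ (x' : B) (u : B → ℝ), Sm E₁ u →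
      I (NN g gB pr u) x' = Grd gB (I fun _ => 1) u x' := by
    intro x' u hu
    obtain ⟨U, Φ, hx, hΦ⟩ := hpr.2 x'
    obtain ⟨h, hh⟩ := exists_isFib hΦ g hx
    obtain ⟨ν, hν⟩ := exists_rvol h
    have := hν.fin
    have hloc : ∀ K : M → ℝ, Sm E K → I K x' = ∫ y, K (Φ (x', y)) ∂ν := fun K hK =>
      hI.loc U Φ hΦ x' hx h ν hh hν K hK
    have hsl : Continuous fun y : F => Φ (x', y) := (IntScalAux.smooth_slice hΦ hx).continuous
    have hN := IntScalAux.sm_NN hs g gB hu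
    have hL : Sm E (Lap g (fun p => u (pr p))) := Circ.sm_lap g (Circ.sm_comp_pr hs.1 hu)
    have h1 := star hg hM hB hI hone hu x'
    have h2 : (fun p => Grd g (fun _ : M => (1 : ℝ)) (fun p => u (pr p)) p +
        1 * Lap g (fun p => u (pr p)) p) = Lap g (fun p => u (pr p)) := by
      funext p
      rw [Circ.grd_const_left, zero_add, one_mul]
    rw [h2] at h1
    have h3 : I (Lap g (fun p => u (pr p))) x' =
        I (NN g gB pr u) x' + I (fun _ => 1) x' * Lap gB u x' := by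
      rw [hloc _ hL, hloc _ hN, hloc _ hone, ← integral_mul_const, ← integral_add]
      · refine integral_congr_ae (Eventually.of_forall fun y => ?_)
        show Lap g (fun p => u (pr p)) (Φ (x', y)) = (Lap g (fun p => u (pr p)) (Φ (x', y)) -
          Lap gB u (pr (Φ (x', y)))) + 1 * Lap gB u x'
        rw [hΦ.proj x' hx y]
        ring
      · exact (hN.continuous.comp hsl).integrable_of_hasCompactSupport
          (HasCompactSupport.of_compactSpace _)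
      · exact (continuous_const).integrable_of_hasCompactSupport
          (HasCompactSupport.of_compactSpace _)
    rw [h3] at h1
    linarith
  obtain ⟨U, Φ, hx, hΦ⟩ := hpr.2 x
  obtain ⟨h, hh⟩ := exists_isFib hΦ g hx
  obtain ⟨ν, hν⟩ := exists_rvol h
  obtain ⟨f, hf⟩ := exists_normal gB x
  obtain ⟨lam, hlam, hEin⟩ := IntScalAux.einstein_fib hΦ hx hh hE
  have := hν.fin
  have hloc : ∀ K : M → ℝ, Sm E K → I K x = ∫ y, K (Φ (x, y)) ∂ν := fun K hK =>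
    hI.loc U Φ hΦ x hx h ν hh hν K hK
  have hsl : Continuous fun y : F => Φ (x, y) := (IntScalAux.smooth_slice hΦ hx).continuous
  have hint : ∀ K : F → ℝ, Continuous K → Integrable K ν := fun K hK =>
    hK.integrable_of_hasCompactSupport (HasCompactSupport.of_compactSpace K)
  have hcont : ∀ K : M → ℝ, Sm E K → Continuous fun y : F => K (Φ (x, y)) := fun K hK =>
    hK.continuous.comp hsl
  have hVν : I (fun _ => 1) x = ν.real univ := by
    rw [hloc _ hone, integral_const, smul_eq_mul, mul_one]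
  have hV : 0 < I (fun _ => 1) x := by
    rw [hloc _ hone]
    obtain ⟨y⟩ : Nonempty F := inferInstance
    exact hν.pos (continuous_const (y := (1 : ℝ))) (fun _ => zero_le_one) (p := y) zero_lt_one
  refine ⟨hV, ?_⟩
  -- abbreviations
  set N : Fin (finrank ℝ E₁) → M → ℝ := fun i => NN g gB pr (f i) with hNdef
  have hN : ∀ i, Sm E (N i) := fun i => IntScalAux.sm_NN hs g gB (hf.sm i)
  have hfp : ∀ i, Sm E (fun p => f i (pr p)) := fun i => Circ.sm_comp_pr hs.1 (hf.sm i)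
  have hG : ∀ i, Sm E (Grd g (N i) (fun p => f i (pr p))) := fun i =>
    Circ.sm_grd g (hN i) (hfp i)
  have hIV : Sm E₁ (I fun _ => 1) := hI.sm _ hone
  set K : Fin (finrank ℝ E₁) → F → Matrix (Fin (finrank ℝ E₂)) (Fin (finrank ℝ E₂)) ℝ :=
    fun i y => LD (Fib.fm g (psi E₁ E₂ Φ x y)) (Fib.gam g (psi E₁ E₂ Φ x y))
      (pt E₁ E₂ x y x y) (gv gB (f i) x) with hKdef
  -- the inequality of DeWitt for every direction
  have hdw : ∀ i, (Continuous fun y => ipM (cof h y) (K i y) (K i y)) ∧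
      4 * ∫ y, N i (Φ (x, y)) ^ 2 ∂ν - ∫ y, ipM (cof h y) (K i y) (K i y) ∂ν ≤
        (1 - 1 / (finrank ℝ E₂ : ℝ)) * (2 * Grd gB (I fun _ => 1) (f i) x) ^ 2 /
          I (fun _ => 1) x := by
    intro i
    obtain ⟨ι, κ, _, _, s, w, a, b, c, hw, ha, hb, hK, hc⟩ :=
      rep_LD hE hΦ hx hh (gv gB (f i) x)
    have hc1 := cont_rep (h := h) hw ha hb hK
    have h1 := dewitt hd₂ hν hlam hEin hw ha hb hK hc
    have htr : ∀ y, trM (cof h y) (K i y) = 2 * N i (Φ (x, y)) := fun y =>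
      trM_LD hg hΦ hx hh (hf.sm i) y
    refine ⟨hc1.2, ?_⟩
    have h2 : ∫ y, (trM (cof h y) (K i y) ^ 2 - ipM (cof h y) (K i y) (K i y)) ∂ν =
        4 * ∫ y, N i (Φ (x, y)) ^ 2 ∂ν - ∫ y, ipM (cof h y) (K i y) (K i y) ∂ν := by
      rw [integral_sub, ← integral_const_mul]
      · congr 1
        refine integral_congr_ae (Eventually.of_forall fun y => ?_)
        show trM (cof h y) (K i y) ^ 2 = 4 * N i (Φ (x, y)) ^ 2
        rw [htr y]
        ring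
      · exact hint _ (hc1.1.pow 2)
      · exact hint _ hc1.2
    have h3 : ∫ y, trM (cof h y) (K i y) ∂ν = 2 * Grd gB (I fun _ => 1) (f i) x := by
      rw [← key x (f i) (hf.sm i), hloc _ (hN i), ← integral_const_mul]
      exact integral_congr_ae (Eventually.of_forall htr)
    have h4 : ∫ y, (trM (cof h y) (K i y) ^ 2 - ipM (cof h y) (K i y) (K i y)) ∂ν ≤
      (1 - 1 / (finrank ℝ E₂ : ℝ)) * (∫ y, trM (cof h y) (K i y) ∂ν) ^ 2 / ν.real univ := h1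
    rw [h2, h3, ← hVν] at h4
    exact h4
  -- the second star
  have hst : ∀ i, ∫ y, Grd g (N i) (fun p => f i (pr p)) (Φ (x, y)) ∂ν +
      ∫ y, N i (Φ (x, y)) ^ 2 ∂ν = Grd gB (Grd gB (I fun _ => 1) (f i)) (f i) x := by
    intro i
    have h1 := star hg hM hB hI (hN i) (hf.sm i) x
    rw [hf.lap i, mul_zero, add_zero] at h1
    have h2 : I (N i) = Grd gB (I fun _ => 1) (f i) := funext fun x' => key x' (f i) (hf.sm i)
    rw [h2] at h1
    have hL : Sm E (Lap g (fun p => f i (pr p))) := Circ.sm_lap g (hfp i)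
    have h3 : Sm E (fun p => Grd g (N i) (fun p => f i (pr p)) p +
        N i p * Lap g (fun p => f i (pr p)) p) := ContMDiff.add (hG i) (ContMDiff.mul (hN i) hL)
    rw [h1, hloc _ h3, ← integral_add]
    · refine integral_congr_ae (Eventually.of_forall fun y => ?_)
      show Grd g (N i) (fun p => f i (pr p)) (Φ (x, y)) + N i (Φ (x, y)) ^ 2 =
        Grd g (N i) (fun p => f i (pr p)) (Φ (x, y)) +
          N i (Φ (x, y)) * Lap g (fun p => f i (pr p)) (Φ (x, y))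
      have h4 : N i (Φ (x, y)) = Lap g (fun p => f i (pr p)) (Φ (x, y)) := by
        show Lap g (fun p => f i (pr p)) (Φ (x, y)) - Lap gB (f i) (pr (Φ (x, y))) = _
        rw [hΦ.proj x hx y, hf.lap i, sub_zero]
      rw [← h4]
      ring
    · exact hint _ (hcont _ (hG i))
    · exact hint _ ((hcont _ (hN i)).pow 2)
  -- integration of the formula of O'Neill
  have hSc := sm_scal g
  have hon : I (Scal g) x ≤ I (fun _ => 1) x * Scal gB x - ∑ i, ((1 / 4) *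
      ∫ y, ipM (cof h y) (K i y) (K i y) ∂ν +
      (2 * ∫ y, Grd g (N i) (fun p => f i (pr p)) (Φ (x, y)) ∂ν +
        ∫ y, N i (Φ (x, y)) ^ 2 ∂ν)) := by
    have h1 : ∀ y, Scal g (Φ (x, y)) ≤ Scal gB x - ∑ i, ((1 / 4) *
        ipM (cof h y) (K i y) (K i y) +
        (2 * Grd g (N i) (fun p => f i (pr p)) (Φ (x, y)) + N i (Φ (x, y)) ^ 2)) := by
      intro y
      have h2 := oneill hg hΦ hx hh hf y
      have h3 := IntScalAux.scal_einstein hlam hEin y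
      linarith
    have c1 : ∀ i, Continuous fun y => (1 / 4) * ipM (cof h y) (K i y) (K i y) := fun i =>
      continuous_const.mul (hdw i).1
    have c2 : ∀ i, Continuous fun y => 2 * Grd g (N i) (fun p => f i (pr p)) (Φ (x, y)) :=
      fun i => continuous_const.mul (hcont _ (hG i))
    have c3 : ∀ i, Continuous fun y => N i (Φ (x, y)) ^ 2 := fun i => (hcont _ (hN i)).pow 2
    have c23 : ∀ i, Continuous fun y => 2 * Grd g (N i) (fun p => f i (pr p)) (Φ (x, y)) +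
        N i (Φ (x, y)) ^ 2 := fun i => (c2 i).add (c3 i)
    have c4 : ∀ i, Continuous fun y => (1 / 4) * ipM (cof h y) (K i y) (K i y) +
        (2 * Grd g (N i) (fun p => f i (pr p)) (Φ (x, y)) + N i (Φ (x, y)) ^ 2) := fun i =>
      (c1 i).add ((c2 i).add (c3 i))
    have c5 : Continuous fun y => ∑ i, ((1 / 4) * ipM (cof h y) (K i y) (K i y) +
        (2 * Grd g (N i) (fun p => f i (pr p)) (Φ (x, y)) + N i (Φ (x, y)) ^ 2)) :=
      continuous_finsetSum _ fun i _ => c4 i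
    have h2 : ∫ y, Scal g (Φ (x, y)) ∂ν ≤ ∫ y, (Scal gB x - ∑ i, ((1 / 4) *
        ipM (cof h y) (K i y) (K i y) +
        (2 * Grd g (N i) (fun p => f i (pr p)) (Φ (x, y)) + N i (Φ (x, y)) ^ 2))) ∂ν :=
      integral_mono (hint _ (hcont _ hSc)) (hint _ (continuous_const.sub c5)) h1
    rw [hloc _ hSc]
    refine h2.trans (le_of_eq ?_)
    rw [integral_sub (hint _ continuous_const) (hint _ c5), integral_const, smul_eq_mul, ← hVν,
      integral_finsetSum _ fun i _ => hint _ (c4 i)]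
    congr 1
    refine Finset.sum_congr rfl fun i _ => ?_
    rw [integral_add (hint _ (c1 i)) (hint _ (c23 i)),
      integral_add (hint _ (c2 i)) (hint _ (c3 i)), integral_const_mul, integral_const_mul]
  refine hon.trans ?_
  have hsq := hf.grd_sq hIV
  have hgg := hf.grd_grd hIV
  rw [← hsq, ← hgg, Finset.sum_div, Finset.mul_sum, Finset.mul_sum]
  have hfin : ∀ i, -((1 / 4) * ∫ y, ipM (cof h y) (K i y) (K i y) ∂ν +
      (2 * ∫ y, Grd g (N i) (fun p => f i (pr p)) (Φ (x, y)) ∂ν +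
        ∫ y, N i (Φ (x, y)) ^ 2 ∂ν)) ≤
      -(2 * Grd gB (Grd gB (I fun _ => 1) (f i)) (f i) x) +
        (1 - 1 / (finrank ℝ E₂ : ℝ)) *
          (Grd gB (I fun _ => 1) (f i) x ^ 2 / I (fun _ => 1) x) := by
    intro i
    have h1 := (hdw i).2
    have h2 := hst i
    have h3 : (1 - 1 / (finrank ℝ E₂ : ℝ)) * (2 * Grd gB (I fun _ => 1) (f i) x) ^ 2 /
        I (fun _ => 1) x = 4 * ((1 - 1 / (finrank ℝ E₂ : ℝ)) *
          (Grd gB (I fun _ => 1) (f i) x ^ 2 / I (fun _ => 1) x)) := by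
      ring
    rw [h3] at h1
    linarith
  have hsum := Finset.sum_le_sum fun i (_ : i ∈ (Finset.univ : Finset (Fin (finrank ℝ E₁)))) =>
    hfin i
  have h5 : ∑ i, -((1 / 4) * ∫ y, ipM (cof h y) (K i y) (K i y) ∂ν +
      (2 * ∫ y, Grd g (N i) (fun p => f i (pr p)) (Φ (x, y)) ∂ν +
        ∫ y, N i (Φ (x, y)) ^ 2 ∂ν)) = -∑ i, ((1 / 4) *
      ∫ y, ipM (cof h y) (K i y) (K i y) ∂ν +
      (2 * ∫ y, Grd g (N i) (fun p => f i (pr p)) (Φ (x, y)) ∂ν +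
        ∫ y, N i (Φ (x, y)) ^ 2 ∂ν)) := Finset.sum_neg_distrib _
  have h6 : ∑ i, (-(2 * Grd gB (Grd gB (I fun _ => 1) (f i)) (f i) x) +
        (1 - 1 / (finrank ℝ E₂ : ℝ)) *
          (Grd gB (I fun _ => 1) (f i) x ^ 2 / I (fun _ => 1) x)) =
      -∑ i, (2 * Grd gB (Grd gB (I fun _ => 1) (f i)) (f i) x) +
        ∑ i, ((1 - 1 / (finrank ℝ E₂ : ℝ)) *
          (Grd gB (I fun _ => 1) (f i) x ^ 2 / I (fun _ => 1) x)) := by
    rw [Finset.sum_add_distrib, Finset.sum_neg_distrib]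
  rw [h5, h6] at hsum
  linarith

end Pool.Agent.Lib.MP_df705a_gt.Coll
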