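import Pool.Agent.Lib.MP_df705a_gt.Coll.IY
import Pool.Agent.Lib.MP_df705a_gt.Coll.E.IntScal

/-!
# The integral inequality on the base
-/

open scoped Manifold ContDiff Topology
open Set Bundle Module Filter MeasureTheory

noncomputable section

namespace Pool.Agent.Lib.MP_df705a_gt.Coll

open Pool.Agent.Lib.MP_df705a_gt.Twist Pool.Agent.Lib.MP_df705a_gt.Perm
open Pool.Agent.Lib.MP_df705a_gt.Circ (Horizontal Submersion cf Para HorConf)
open Pool.Agent.Lib.MP_df705a_gt.Fib (RiemSub Biconformal)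

variable {E₁ : Type*} [NormedAddCommGroup E₁] [NormedSpace ℝ E₁] [FiniteDimensional ℝ E₁]
  {B : Type*} [TopologicalSpace B] [ChartedSpace E₁ B] [IsManifold 𝓘(ℝ, E₁) ∞ B]
  {E₂ : Type*} [NormedAddCommGroup E₂] [NormedSpace ℝ E₂] [FiniteDimensional ℝ E₂]
  {F : Type*} [TopologicalSpace F] [ChartedSpace E₂ F] [IsManifold 𝓘(ℝ, E₂) ∞ F]
  {E : Type*} [NormedAddCommGroup E] [NormedSpace ℝ E] [FiniteDimensional ℝ E]
  {M : Type*} [TopologicalSpace M] [ChartedSpace E M] [IsManifold 𝓘(ℝ, E) ∞ M]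
  [MeasurableSpace E₁] [BorelSpace E₁] [MeasurableSpace E₂] [BorelSpace E₂]
  [MeasurableSpace E] [BorelSpace E] [MeasurableSpace B] [BorelSpace B]
  [MeasurableSpace F] [BorelSpace F] [MeasurableSpace M] [BorelSpace M]
  [CompactSpace M] [T2Space M] [CompactSpace B] [T2Space B] [CompactSpace F] [T2Space F]
  [ConnectedSpace F]

namespace KeyIntAux

theorem sm_cont {f : B → ℝ} (hf : Sm E₁ f) : Continuous f := ContMDiff.continuous hf

theorem sm_mul {f f' : B → ℝ} (hf : Sm E₁ f) (hf' : Sm E₁ f') : Sm E₁ (fun x => f x * f' x) :=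
  ContMDiff.mul hf hf'

omit [FiniteDimensional ℝ E₁] [IsManifold 𝓘(ℝ, E₁) ∞ B] [MeasurableSpace E₁] [BorelSpace E₁]
  [ChartedSpace E₁ B] [T2Space B] in
theorem cont_int {μ : Measure B} [IsFiniteMeasure μ] {f : B → ℝ} (hf : Continuous f) :
    Integrable f μ :=
  hf.integrable_of_hasCompactSupport (HasCompactSupport.of_compactSpace f)

/-- Symmetry of the gradient product. -/
theorem grd_comm (g : Met E₁ B) (u v : B → ℝ) (x : B) : Grd g u v x = Grd g v u x := by
  exact Fib.gradC_comm (chartMetric_posDef 𝓘(ℝ, E₁) (finBasis ℝ E₁) g x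
    (mem_extChartAt_target x))

/-- The gradient of a constant. -/
theorem grd_const (g : Met E₁ B) (c : ℝ) (f : B → ℝ) (x : B) :
    Grd g (fun _ : B => c) f x = 0 := by
  have h1 : rd E₁ x (fun _ : B => c) = fun _ => c := rfl
  unfold Grd gradC
  rw [h1]
  refine Finset.sum_eq_zero fun i _ => Finset.sum_eq_zero fun j _ => ?_
  rw [G4.pd_const]
  simp

/-- Gradient of `w exp (-v/2)`. -/
theorem grd_u (g : Met E₁ B) {w v : B → ℝ} (hw : Sm E₁ w) (hv : Sm E₁ v) (x : B) :
    Grd g (fun x => w x * Real.exp (-(1 / 2) * v x)) (fun x => w x * Real.exp (-(1 / 2) * v x)) x =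
      Real.exp (-v x) * (Grd g w w x - w x * Grd g w v x + (1 / 4) * (w x ^ 2 * Grd g v v x)) := by
  have hs : Sm E₁ (fun x => -(1 / 2) * v x) := sm_smul hv _
  have he : Sm E₁ (fun x => Real.exp (-(1 / 2) * v x)) :=
    sm_comp (φ := Real.exp) hs (fun x => Real.contDiff_exp.contDiffAt)
  have hsl : ∀ (f : B → ℝ), Grd g (fun x => -(1 / 2) * v x) f x = -(1 / 2) * Grd g v f x := by
    intro f
    have h1 := Fib.grd_mul_left g (s := fun _ : B => (-(1 / 2) : ℝ)) (w := v) (sm_const _) hv f x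
    rw [h1]
    have h2 : Grd g (fun _ : B => (-(1 / 2) : ℝ)) f x = 0 := grd_const g _ f x
    rw [h2]
    ring
  have hgen : ∀ f : B → ℝ, Grd g (fun x => w x * Real.exp (-(1 / 2) * v x)) f x =
      Real.exp (-(1 / 2) * v x) * (Grd g w f x - (1 / 2) * (w x * Grd g v f x)) := by
    intro f
    rw [Fib.grd_mul_left g hw he f x, Fib.grd_exp_left g hs f x, hsl f]
    ring
  rw [hgen, grd_comm g w, grd_comm g v, hgen w, hgen v, grd_comm g v w]
  have hexp : Real.exp (-v x) = Real.exp (-(1 / 2) * v x) * Real.exp (-(1 / 2) * v x) := by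
    rw [← Real.exp_add]
    congr 1
    ring
  rw [hexp]
  ring

end KeyIntAux

open KeyIntAux

/-- The integral inequality on the base. -/
theorem key_int (hd : finrank ℝ E = finrank ℝ E₁ + finrank ℝ E₂) (hd₂ : 0 < finrank ℝ E₂)
    (hn : 3 ≤ finrank ℝ E) [Nonempty M]
    {pr : M → B} (hpr : IsFibreBundle E E₁ E₂ F pr) {g : Met E M} {gB : Met E₁ B}
    (hg : RiemSub g gB pr) (hE : EinsteinFibres E₂ g pr) (hc : ConfPSC g) {μB : Measure B}
    (hB : IsRVol gB μB) :
    ∃ (δ : ℝ) (v : B → ℝ), 0 < δ ∧ Sm E₁ v ∧ ∀ w : B → ℝ, Sm E₁ w →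
      δ * ∫ x, w x ^ 2 ∂μB ≤ ∫ x, (4 * ((finrank ℝ E : ℝ) - 1) * Grd gB w w x -
        4 * (w x * Grd gB w v x) -
        ((finrank ℝ E₁ : ℝ) - 2) / (finrank ℝ E₂ : ℝ) * (w x ^ 2 * Grd gB v v x) +
        ((finrank ℝ E : ℝ) - 2) * (Scal gB x * w x ^ 2)) ∂μB := by
  have := hB.fin
  obtain ⟨μM, hM⟩ := exists_rvol g
  have := hM.fin
  obtain ⟨I, hI⟩ := exists_fibInt (F := F) hd hpr (RiemSub.horVol hd hg) hM hB
  obtain ⟨δ, hδ, hbar⟩ := barta hn hM hc
  have hone : Sm E (fun _ : M => (1 : ℝ)) := sm_const 1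
  set V : B → ℝ := I (fun _ => 1) with hV
  have hVs : Sm E₁ V := hI.sm _ hone
  have hkey := fun x => int_scal_le (F := F) hd hd₂ hpr hg hE hM hB hI x
  have hVpos : ∀ x, 0 < V x := fun x => (hkey x).1
  set v : B → ℝ := fun x => Real.log (V x) with hv
  have hvs : Sm E₁ v := sm_comp (φ := Real.log) hVs
    (fun x => Real.contDiffAt_log.mpr (hVpos x).ne')
  have hVv : V = fun x => Real.exp (v x) := by
    funext x
    rw [hv]
    exact (Real.exp_log (hVpos x)).symm
  have hVv' : ∀ x, V x = Real.exp (v x) := fun x => congrFun hVv x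
  -- derivatives of V
  have hlapV : ∀ x, Lap gB V x = V x * (Lap gB v x + Grd gB v v x) := by
    intro x
    rw [hVv]
    have h1 := lap_comp gB (φ := Real.exp) hvs (fun x => Real.contDiff_exp.contDiffAt) x
    simp only [Real.deriv_exp] at h1
    rw [h1]
    ring
  have hgrdV : ∀ x, Grd gB V V x = V x ^ 2 * Grd gB v v x := by
    intro x
    rw [hVv]
    have h1 := grd_comp gB (φ := Real.exp) hvs (fun x => Real.contDiff_exp.contDiffAt) x
    simp only [Real.deriv_exp] at h1
    rw [h1]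
  refine ⟨δ, v, hδ, hvs, ?_⟩
  intro w hw
  set n : ℝ := (finrank ℝ E : ℝ) with hn'
  set m : ℝ := (finrank ℝ E₁ : ℝ) with hm'
  set k : ℝ := (finrank ℝ E₂ : ℝ) with hk'
  have hnmk : n = m + k := by
    rw [hn', hm', hk', hd]
    push_cast
    rfl
  have hk0 : 0 < k := by
    rw [hk']
    exact_mod_cast hd₂
  have hn3 : 3 ≤ n := by
    rw [hn']
    exact_mod_cast hn
  -- the test function
  set u : B → ℝ := fun x => w x * Real.exp (-(1 / 2) * v x) with hu
  have hes : Sm E₁ (fun x => Real.exp (-(1 / 2) * v x)) :=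
    sm_comp (φ := Real.exp) (sm_smul hvs _) (fun x => Real.contDiff_exp.contDiffAt)
  have hus : Sm E₁ u := sm_mul hw hes
  have hu2 : ∀ x, u x ^ 2 = w x ^ 2 * Real.exp (-v x) := by
    intro x
    rw [hu]
    change (w x * Real.exp (-(1 / 2) * v x)) ^ 2 = _
    rw [mul_pow, ← Real.exp_nat_mul]
    congr 2
    push_cast
    ring
  have hu2V : ∀ x, u x ^ 2 * V x = w x ^ 2 := by
    intro x
    rw [hu2, hVv' x, mul_assoc, ← Real.exp_add, neg_add_cancel, Real.exp_zero, mul_one]
  have hφs : Sm E (fun p => u (pr p)) := Circ.sm_comp_pr hpr.1.1 hus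
  have hb := hbar _ hφs
  -- horizontal gradient
  have hgr : ∀ p, Grd g (fun p => u (pr p)) (fun p => u (pr p)) p = Grd gB u u (pr p) := by
    intro p
    have h1 := Circ.grd_sub g gB hpr.1 (p := p) (r := 1)
      (fun a b ha hb' => by rw [one_mul]; exact hg.2 p a b ha hb') hus hus
    rw [one_mul] at h1
    exact h1
  have hgus : Sm E₁ (Grd gB u u) := Circ.sm_grd gB hus hus
  have hscM : Sm E (Scal g) := sm_scal g
  have hscB : Sm E₁ (Scal gB) := sm_scal gB
  have hu2c : Continuous (fun x => u x ^ 2) := (sm_cont hus).pow 2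
  -- the integrals
  have e1 : ∫ p, u (pr p) ^ 2 ∂μM = ∫ x, w x ^ 2 ∂μB := by
    have h1 := hI.fub (fun x => u x ^ 2) (fun _ => 1) hu2c hone
    simp only [mul_one] at h1
    rw [h1]
    exact integral_congr_ae (Eventually.of_forall fun x => hu2V x)
  have e2 : ∫ p, Grd g (fun p => u (pr p)) (fun p => u (pr p)) p ∂μM =
      ∫ x, Grd gB u u x * V x ∂μB := by
    have h1 := hI.fub (fun x => Grd gB u u x) (fun _ => 1) (sm_cont hgus) hone
    simp only [mul_one] at h1
    rw [← h1]
    exact integral_congr_ae (Eventually.of_forall fun p => hgr p)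
  have e3 : ∫ p, Scal g p * u (pr p) ^ 2 ∂μM = ∫ x, u x ^ 2 * I (Scal g) x ∂μB := by
    rw [← hI.fub (fun x => u x ^ 2) (Scal g) hu2c hscM]
    exact integral_congr_ae (Eventually.of_forall fun p => mul_comm _ _)
  have hprc : Continuous pr := hpr.1.1.continuous
  have c1 : Continuous (fun p => Grd g (fun p => u (pr p)) (fun p => u (pr p)) p) :=
    ContMDiff.continuous (Circ.sm_grd g hφs hφs)
  have c2 : Continuous (fun p => Scal g p * u (pr p) ^ 2) :=
    (ContMDiff.continuous hscM).mul ((ContMDiff.continuous hφs).pow 2)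
  have i1 : Integrable (fun p => Grd g (fun p => u (pr p)) (fun p => u (pr p)) p) μM :=
    c1.integrable_of_hasCompactSupport (HasCompactSupport.of_compactSpace _)
  have i2 : Integrable (fun p => Scal g p * u (pr p) ^ 2) μM :=
    c2.integrable_of_hasCompactSupport (HasCompactSupport.of_compactSpace _)
  have hb2 : δ * ∫ x, w x ^ 2 ∂μB ≤ 4 * (n - 1) * ∫ x, Grd gB u u x * V x ∂μB +
      (n - 2) * ∫ x, u x ^ 2 * I (Scal g) x ∂μB := by
    rw [← e1, ← e2, ← e3]
    refine hb.trans (le_of_eq ?_)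
    have j1 : Integrable (fun p => 4 * (n - 1) *
        Grd g (fun p => u (pr p)) (fun p => u (pr p)) p) μM := i1.const_mul _
    have j2 : Integrable (fun p => (n - 2) * (Scal g p * u (pr p) ^ 2)) μM := i2.const_mul _
    rw [← integral_const_mul (4 * (n - 1)), ← integral_const_mul (n - 2), ← integral_add j1 j2]
    refine integral_congr_ae (Eventually.of_forall fun p => ?_)
    simp only
    ring
  -- the scalar curvature
  have cS : Continuous (fun x => u x ^ 2 * I (Scal g) x) :=
    hu2c.mul (sm_cont (hI.sm _ hscM))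
  have hGvv : Continuous (Grd gB v v) := sm_cont (Circ.sm_grd gB hvs hvs)
  have hGwv : Continuous (Grd gB w v) := sm_cont (Circ.sm_grd gB hw hvs)
  have hGww : Continuous (Grd gB w w) := sm_cont (Circ.sm_grd gB hw hw)
  have hLv : Continuous (Lap gB v) := sm_cont (Circ.sm_lap gB hvs)
  have hwc : Continuous w := sm_cont hw
  have hSc : Continuous (Scal gB) := sm_cont hscB
  have hle : ∫ x, u x ^ 2 * I (Scal g) x ∂μB ≤ ∫ x, (Scal gB x * w x ^ 2 -
      2 * (w x ^ 2 * Lap gB v x) - (1 + 1 / k) * (w x ^ 2 * Grd gB v v x)) ∂μB := by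
    refine integral_mono (cont_int cS) (cont_int (by fun_prop)) fun x => ?_
    have h1 := mul_le_mul_of_nonneg_left (hkey x).2 (sq_nonneg (u x))
    refine h1.trans (le_of_eq ?_)
    change u x ^ 2 * (V x * Scal gB x - 2 * Lap gB V x +
      (1 - 1 / k) * (Grd gB V V x / V x)) = _
    rw [hlapV x, hgrdV x]
    have h2 : V x ^ 2 * Grd gB v v x / V x = V x * Grd gB v v x := by
      rw [div_eq_iff (hVpos x).ne']
      ring
    rw [h2]
    have h3 := hu2V x
    calc u x ^ 2 * (V x * Scal gB x - 2 * (V x * (Lap gB v x + Grd gB v v x)) +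
          (1 - 1 / k) * (V x * Grd gB v v x)) =
        (u x ^ 2 * V x) * (Scal gB x - 2 * (Lap gB v x + Grd gB v v x) +
          (1 - 1 / k) * Grd gB v v x) := by ring
      _ = _ := by rw [h3]; ring
  -- Green
  have hw2 : Sm E₁ (fun x => w x * w x) := sm_mul hw hw
  have hgreen : ∫ x, w x ^ 2 * Lap gB v x ∂μB = - (2 * ∫ x, w x * Grd gB w v x ∂μB) := by
    have h1 := hB.green hvs hw2
    have h2 : ∀ x, Grd gB (fun x => w x * w x) v x = 2 * (w x * Grd gB w v x) := by
      intro x
      rw [Fib.grd_mul_left gB hw hw v x]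
      ring
    have h3 : ∫ x, (w x * w x * Lap gB v x + Grd gB (fun x => w x * w x) v x) ∂μB =
        ∫ x, w x ^ 2 * Lap gB v x ∂μB + 2 * ∫ x, w x * Grd gB w v x ∂μB := by
      rw [← integral_const_mul, ← integral_add (cont_int (by fun_prop))
        (cont_int (by fun_prop))]
      refine integral_congr_ae (Eventually.of_forall fun x => ?_)
      simp only [h2 x]
      ring
    linarith
  have e4 : ∫ x, Grd gB u u x * V x ∂μB = ∫ x, (Grd gB w w x - w x * Grd gB w v x +
      (1 / 4) * (w x ^ 2 * Grd gB v v x)) ∂μB := by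
    refine integral_congr_ae (Eventually.of_forall fun x => ?_)
    have h1 := grd_u gB hw hvs x
    change Grd gB u u x * V x = _
    rw [show Grd gB u u x = _ from h1, hVv' x]
    have h2 : Real.exp (-v x) * Real.exp (v x) = 1 := by
      rw [← Real.exp_add, neg_add_cancel, Real.exp_zero]
    calc Real.exp (-v x) * (Grd gB w w x - w x * Grd gB w v x +
          (1 / 4) * (w x ^ 2 * Grd gB v v x)) * Real.exp (v x) =
        (Real.exp (-v x) * Real.exp (v x)) * (Grd gB w w x - w x * Grd gB w v x +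
          (1 / 4) * (w x ^ 2 * Grd gB v v x)) := by ring
      _ = _ := by rw [h2, one_mul]
  -- split all integrals
  set a := ∫ x, Grd gB w w x ∂μB with ha
  set b := ∫ x, w x * Grd gB w v x ∂μB with hb'
  set c := ∫ x, w x ^ 2 * Grd gB v v x ∂μB with hc'
  set d := ∫ x, Scal gB x * w x ^ 2 ∂μB with hd'
  set l := ∫ x, w x ^ 2 * Lap gB v x ∂μB with hl'
  have ia : Integrable (fun x => Grd gB w w x) μB := cont_int hGww
  have ib : Integrable (fun x => w x * Grd gB w v x) μB := cont_int (by fun_prop)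
  have ic : Integrable (fun x => w x ^ 2 * Grd gB v v x) μB := cont_int (by fun_prop)
  have id' : Integrable (fun x => Scal gB x * w x ^ 2) μB := cont_int (by fun_prop)
  have il : Integrable (fun x => w x ^ 2 * Lap gB v x) μB := cont_int (by fun_prop)
  have s1 : ∫ x, (Grd gB w w x - w x * Grd gB w v x +
      (1 / 4) * (w x ^ 2 * Grd gB v v x)) ∂μB = a - b + (1 / 4) * c := by
    have j1 : Integrable (fun x => Grd gB w w x - w x * Grd gB w v x) μB := ia.sub ib
    have j2 : Integrable (fun x => (1 / 4) * (w x ^ 2 * Grd gB v v x)) μB := ic.const_mul _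
    rw [integral_add j1 j2, integral_sub ia ib, integral_const_mul]
  have s2 : ∫ x, (Scal gB x * w x ^ 2 -
      2 * (w x ^ 2 * Lap gB v x) - (1 + 1 / k) * (w x ^ 2 * Grd gB v v x)) ∂μB =
      d - 2 * l - (1 + 1 / k) * c := by
    have j1 : Integrable (fun x => 2 * (w x ^ 2 * Lap gB v x)) μB := il.const_mul _
    have j2 : Integrable (fun x => Scal gB x * w x ^ 2 - 2 * (w x ^ 2 * Lap gB v x)) μB :=
      id'.sub j1
    have j3 : Integrable (fun x => (1 + 1 / k) * (w x ^ 2 * Grd gB v v x)) μB :=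
      ic.const_mul _
    rw [integral_sub j2 j3, integral_sub id' j1, integral_const_mul, integral_const_mul]
  have s3 : ∫ x, (4 * (n - 1) * Grd gB w w x - 4 * (w x * Grd gB w v x) -
      (m - 2) / k * (w x ^ 2 * Grd gB v v x) + (n - 2) * (Scal gB x * w x ^ 2)) ∂μB =
      4 * (n - 1) * a - 4 * b - (m - 2) / k * c + (n - 2) * d := by
    have j1 : Integrable (fun x => 4 * (n - 1) * Grd gB w w x) μB := ia.const_mul _
    have j2 : Integrable (fun x => 4 * (w x * Grd gB w v x)) μB := ib.const_mul _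
    have j3 : Integrable (fun x => 4 * (n - 1) * Grd gB w w x - 4 * (w x * Grd gB w v x)) μB :=
      j1.sub j2
    have j4 : Integrable (fun x => (m - 2) / k * (w x ^ 2 * Grd gB v v x)) μB :=
      ic.const_mul _
    have j5 : Integrable (fun x => 4 * (n - 1) * Grd gB w w x - 4 * (w x * Grd gB w v x) -
        (m - 2) / k * (w x ^ 2 * Grd gB v v x)) μB := j3.sub j4
    have j6 : Integrable (fun x => (n - 2) * (Scal gB x * w x ^ 2)) μB := id'.const_mul _
    rw [integral_add j5 j6, integral_sub j3 j4, integral_sub j1 j2, integral_const_mul,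
      integral_const_mul, integral_const_mul, integral_const_mul]
  rw [e4, s1] at hb2
  rw [s2] at hle
  rw [s3]
  have hle2 := mul_le_mul_of_nonneg_left hle (show (0 : ℝ) ≤ n - 2 by linarith)
  refine hb2.trans ((add_le_add_right hle2 _).trans (le_of_eq ?_))
  rw [hgreen, hnmk]
  field_simp
  ring

end Pool.Agent.Lib.MP_df705a_gt.Coll
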